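import Pool.Agent.Helper743.KTFin

set_option autoImplicit false

/-! Problem MP_95c08c_lc: almost complete sets below the halting problem need not compute the
K-trivial sets. For EVERY noncomputable computably enumerable set `A` there is an almost complete
set `B` strictly below the halting problem which does not compute `A`, and there is a
noncomputable computably enumerable K-trivial set. -/

namespace Pool.Agent.Results.MP_95c08c_lc.NotAboveKTrivials

open Pool.Agent.Helper743 Pool.Agent.Helper743.KT Nat.Partrec

/-- `A` is Turing reducible to `B`, for sets given by their characteristic functions. -/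
def Below (A B : ℕ → Bool) : Prop :=
  TuringReducible (fun n => Part.some (A n).toNat : ℕ →. ℕ)
    (fun n => Part.some (B n).toNat : ℕ →. ℕ)

/-- `f` is upper semicomputable relative to the set `B`: the set of the pairs `(n, k)` with
`f n ≤ k` is the domain of a function that is partial computable relative to `B`. -/
def UpperSemi (B : ℕ → Bool) (f : ℕ → ℕ) : Prop :=
  ∃ φ : ℕ →. ℕ, TuringReducible φ (fun n => Part.some (B n).toNat : ℕ →. ℕ) ∧
    ∀ n k : ℕ, (φ (Nat.pair n k)).Dom ↔ f n ≤ k

/-- All finite sums of the numbers `2 ^ (- f n)` are at most `1`. -/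
def KraftSum (f : ℕ → ℕ) : Prop := ∀ s : Finset ℕ, ∑ n ∈ s, (1 / 2 : ℝ) ^ f n ≤ 1

/-- `κ` is (a version of) prefix-free Kolmogorov complexity relative to `B`, on natural numbers:
the least function up to an additive constant among the functions which are upper semicomputable
relative to `B` and satisfy the Kraft inequality. -/
def IsComplexity (B : ℕ → Bool) (κ : ℕ → ℕ) : Prop :=
  UpperSemi B κ ∧ KraftSum κ ∧
    ∀ f : ℕ → ℕ, UpperSemi B f → KraftSum f → ∃ c : ℕ, ∀ n, κ n ≤ f n + c

/-- `X` is K-trivial relative to `B`: for every version `κ` of the complexity relative to `B` the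
complexity of the string of the first `n` bits of `X` exceeds that of `n` by at most a constant.
Strings are coded by natural numbers in the standard way. -/
def KTrivialRel (X B : ℕ → Bool) : Prop :=
  ∀ κ : ℕ → ℕ, IsComplexity B κ →
    ∃ c : ℕ, ∀ n : ℕ, κ (Encodable.encode (List.ofFn (fun i : Fin n => X i))) ≤ κ n + c

/-- `X` is K-trivial, that is, K-trivial relative to the empty set. -/
def KTrivial (X : ℕ → Bool) : Prop := KTrivialRel X (fun _ => false)

/-- The halting problem. -/
noncomputable def haltingSet (n : ℕ) : Bool :=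
  open Classical in decide (Code.eval (Denumerable.ofNat Code n) n).Dom

/-- `B` is almost complete: the halting problem is K-trivial relative to `B`. -/
def AlmostComplete (B : ℕ → Bool) : Prop := KTrivialRel haltingSet B

/-- `A` is computably enumerable: the domain of a partial computable function. -/
def CE (A : ℕ → Bool) : Prop := ∃ φ : ℕ →. ℕ, Nat.Partrec φ ∧ ∀ n, (φ n).Dom ↔ A n = true

theorem up_iff (B : ℕ → Bool) (f : ℕ → ℕ) : UpperSemi B f ↔ UpS (fun n => (B n).toNat) f := by
  constructor
  · rintro ⟨φ, h1, h2⟩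
    exact ⟨φ, RecursiveIn.iff_nat.1 h1, h2⟩
  · rintro ⟨φ, h1, h2⟩
    exact ⟨φ, RecursiveIn.iff_nat.2 h1, h2⟩

theorem complexity_KG {B : ℕ → Bool} {G : ℕ → ℕ} (h1 : TR G (fun n => (B n).toNat))
    (h2 : TR (fun n => (B n).toNat) G) : IsComplexity B (KG G) :=
  ⟨(up_iff B _).2 (UpS_of_TR h1 (KG_UpS G)), KG_Kraft G,
    fun _ hf hk => KG_opt (UpS_of_TR h2 ((up_iff B _).1 hf)) hk⟩

theorem trivial_of_KG {X B : ℕ → Bool} {G : ℕ → ℕ} (h1 : TR G (fun n => (B n).toNat))
    (h2 : TR (fun n => (B n).toNat) G)
    (h : ∃ c, ∀ n, KG G (Encodable.encode (List.ofFn (fun i : Fin n => X i))) ≤ KG G n + c) :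
    KTrivialRel X B := by
  rintro κ ⟨k1, k2, k3⟩
  obtain ⟨g1, g2, g3⟩ := complexity_KG h1 h2
  obtain ⟨c1, hc1⟩ := k3 _ g1 g2
  obtain ⟨c2, hc2⟩ := g3 κ k1 k2
  obtain ⟨c, hc⟩ := h
  refine ⟨c1 + c2 + c, fun n => ?_⟩
  have a1 := hc1 (Encodable.encode (List.ofFn (fun i : Fin n => X i)))
  have a2 := hc2 n
  have a3 := hc n
  omega

/-- There is a noncomputable computably enumerable K-trivial set. -/
theorem exists_trivial : ∃ A : ℕ → Bool, CE A ∧ ¬ Computable A ∧ KTrivial A := by
  classical
  refine ⟨fun n => decide (inA n), ?_, ?_, ?_⟩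
  · obtain ⟨c, hc⟩ := re_code inA_re
    refine ⟨c.eval, Code.exists_code.2 ⟨c, rfl⟩, fun n => ?_⟩
    rw [← hc n]
    simp
  · intro h
    apply not_computable
    refine (Computable.cond h (Computable.const 1) (Computable.const 0)).of_eq ?_
    intro n
    unfold chiA chi
    by_cases h1 : inA n <;> simp [h1]
  · have h1 : TR (fun m => m) (fun n => ((fun _ => false : ℕ → Bool) n).toNat) :=
      Computable.recT Computable.id
    have h2 : TR (fun n => ((fun _ => false : ℕ → Bool) n).toNat) (fun m => m) :=
      Computable.recT (Computable.const 0)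
    refine trivial_of_KG h1 h2 ?_
    obtain ⟨c, hc⟩ := inA_triv
    refine ⟨c, fun n => ?_⟩
    have h3 := hc n
    have h4 : XA n = List.ofFn (fun i : Fin n => decide (inA i)) := by
      unfold XA
      apply List.ext_getElem
      · simp
      · intro i hi1 hi2
        rw [List.getElem_ofFn]
        simp
    rw [← h4]
    exact h3

/-- For every noncomputable c.e. set there is an almost complete set strictly below the halting
problem which does not compute it. -/
theorem avoids (A : ℕ → Bool) (hA : CE A) (hnc : ¬ Computable A) :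
    ∃ B : ℕ → Bool, Below B haltingSet ∧ ¬ Below haltingSet B ∧ AlmostComplete B ∧
      ¬ Below A B := by
  classical
  obtain ⟨φ0, hφ0, hA⟩ := hA
  obtain ⟨c, hc⟩ := Code.exists_code.1 hφ0
  have hBel : ∀ A B : ℕ → Bool, Below A B ↔ TR (fun n => (A n).toNat) (fun n => (B n).toNat) :=
    fun A B => TR_iff.symm
  have hK0 : (fun n => (haltingSet n).toNat) = K0 := by
    funext n
    unfold haltingSet K0
    by_cases h : (Code.eval (Denumerable.ofNat Code n) n).Dom <;> simp [h]
  set a := Encodable.encode c with ha
  have hWA : AC.WA a = fun n => (A n).toNat := by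
    funext n
    unfold AC.WA K
    rw [Nat.unpair_pair, ha, Denumerable.ofNat_encode, hc]
    by_cases h : A n = true
    · rw [if_pos ((hA n).2 h), h]; rfl
    · rw [if_neg (fun h1 => h ((hA n).1 h1))]
      rw [Bool.not_eq_true] at h
      rw [h]; rfl
  have hnc' : ¬ Computable (AC.WA a) := by
    intro h
    apply hnc
    have h2 : Primrec (fun n : ℕ => decide (n = 1)) :=
      (PrimrecPred.decide (p := fun n : ℕ => n = 1) (Primrec.eq.comp Primrec.id
        (Primrec.const 1)))
    refine (h2.to_comp.comp h).of_eq ?_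
    intro n
    rw [hWA]
    beta_reduce
    cases A n <;> decide
  have hAK0 : TR (fun n => (A n).toNat) K0 := by
    rw [← hWA]
    have h1 : Primrec (fun n : ℕ => Nat.pair a n) :=
      Primrec₂.natPair.comp (Primrec.const a) Primrec.id
    exact TR.trans ((TR.refl K).comp (Computable.recT (O := {(K : ℕ →. ℕ)}) h1.to_comp)) K_TR_K0
  have havoid : ¬ TR (fun n => (A n).toNat) (fun n => (gr (AC.GG a) n).toNat) := by
    intro h
    apply AC.avoids a hnc'
    rw [hWA]
    exact TR.trans h (gr_TR _)
  refine ⟨gr (AC.GG a), ?_, ?_, ?_, ?_⟩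
  · rw [hBel, hK0]
    exact TR.trans (gr_TR _) (TR.trans (AC.limC_GG a).TR_K K_TR_K0)
  · rw [hBel, hK0]
    intro h
    exact havoid (TR.trans hAK0 h)
  · refine trivial_of_KG (TR_gr (AC.GG a)) (gr_TR (AC.GG a)) ?_
    obtain ⟨c, hc⟩ := halting_triv a
    refine ⟨c, fun n => ?_⟩
    have h1 := hc n
    have h2 : AC.kstr n = List.ofFn (fun i : Fin n => haltingSet i) := kstr_eq n
    rw [← h2]
    exact h1
  · rw [hBel]
    exact havoid

/-- (1) Every noncomputable c.e. set is avoided by an almost complete set strictly below the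
halting problem. (2) There is a noncomputable c.e. K-trivial set. (3) Hence there are a K-trivial
set `A` and an almost complete set `B` below the halting problem such that `A` is not Turing
reducible to `B`: the negative answer to Q1. -/
theorem result :
    (∀ A : ℕ → Bool, CE A → ¬ Computable A →
      ∃ B : ℕ → Bool, Below B haltingSet ∧ ¬ Below haltingSet B ∧ AlmostComplete B ∧
        ¬ Below A B) ∧
    (∃ A : ℕ → Bool, CE A ∧ ¬ Computable A ∧ KTrivial A) ∧
    (∃ A B : ℕ → Bool, KTrivial A ∧ Below B haltingSet ∧ AlmostComplete B ∧ ¬ Below A B) ∧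
    (∀ B : ℕ → Bool, ∃ κ : ℕ → ℕ, IsComplexity B κ) := by
  refine ⟨avoids, exists_trivial, ?_, fun B => ⟨KG (fun n => (B n).toNat),
    complexity_KG (TR.refl _) (TR.refl _)⟩⟩
  obtain ⟨A, h1, h2, h3⟩ := exists_trivial
  obtain ⟨B, e1, -, e2, e3⟩ := avoids A h1 h2
  exact ⟨A, B, h3, e1, e2, e3⟩

end Pool.Agent.Results.MP_95c08c_lc.NotAboveKTrivials
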